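import Mathlib
import Pool.Agent.U798.BV.Spec

/-! # Project BV (helper798), package FOUR: Fourier coefficients of a function given by the formula of REP -/

set_option autoImplicit false

open MeasureTheory Filter Topology Set
open Pool.Agent.U798.BV

namespace Pool.Agent.U635.BV

lemma cont_e1 : Continuous e1 := by
  unfold e1
  fun_prop

lemma norm_e1 (t : ℝ) : ‖e1 t‖ = 1 := by
  unfold e1
  rw [Complex.norm_exp]
  simp

lemma e1_add (s t : ℝ) : e1 (s + t) = e1 s * e1 t := by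
  unfold e1
  rw [← Complex.exp_add]
  congr 1
  push_cast
  ring

lemma e1_int (n : ℤ) : e1 n = 1 := by
  unfold e1
  have : (2 * (Real.pi : ℂ) * Complex.I * ((n : ℝ) : ℂ)) = n * (2 * Real.pi * Complex.I) := by
    push_cast
    ring
  rw [this]
  exact Complex.exp_int_mul_two_pi_mul_I n

lemma meas_sw : Measurable sw := by
  unfold sw
  exact measurable_fract.sub_const _

lemma abs_sw_le (t : ℝ) : |sw t| ≤ 1 := by
  unfold sw
  have h0 := Int.fract_nonneg t
  have h1 := Int.fract_lt_one t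
  rw [abs_le]
  constructor <;> linarith

lemma sw_add_one (t : ℝ) : sw (t + 1) = sw t := by
  unfold sw
  rw [Int.fract_add_one]

lemma int_lin (n : ℤ) (hn : n ≠ 0) :
    ∫ v in (0 : ℝ)..1, e1 (-(n * v)) * ((v : ℂ) - 1 / 2) = -(1 / (2 * Real.pi * Complex.I * n)) := by
  set a : ℂ := -(2 * Real.pi * Complex.I * n) with ha
  have hn0 : (n : ℂ) ≠ 0 := by exact_mod_cast hn
  have hpi : (Real.pi : ℂ) ≠ 0 := by exact_mod_cast Real.pi_ne_zero
  have ha0 : a ≠ 0 := by
    rw [ha]
    simp [hn0, hpi, Complex.I_ne_zero]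
  have hE : ∀ v : ℝ, e1 (-(n * v)) = Complex.exp (a * v) := by
    intro v
    unfold e1
    congr 1
    rw [ha]
    push_cast
    ring
  have hd : ∀ v : ℝ, HasDerivAt (fun v : ℝ => ((v : ℂ) - 1 / 2) * Complex.exp (a * v) / a -
      Complex.exp (a * v) / a ^ 2) (e1 (-(n * v)) * ((v : ℂ) - 1 / 2)) v := by
    intro v
    have h1 : HasDerivAt (fun v : ℝ => Complex.exp (a * v)) (Complex.exp (a * v) * (a * 1)) v := by
      have h2 : HasDerivAt (fun v : ℝ => a * (v : ℂ)) (a * 1) v :=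
        (Complex.ofRealCLM.hasDerivAt).const_mul a
      exact h2.cexp
    have h3 : HasDerivAt (fun v : ℝ => ((v : ℂ) - 1 / 2)) 1 v :=
      (Complex.ofRealCLM.hasDerivAt (x := v)).sub_const _
    have h4 := ((h3.mul h1).div_const a).sub (h1.div_const (a ^ 2))
    rw [hE]
    have h5 : Complex.exp (a * v) * ((v : ℂ) - 1 / 2) =
        (1 * Complex.exp (a * v) + ((v : ℂ) - 1 / 2) * (Complex.exp (a * v) * (a * 1))) / a -
          Complex.exp (a * v) * (a * 1) / a ^ 2 := by
      field_simp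
      ring
    rw [h5]
    exact h4
  have hc : IntervalIntegrable (fun v : ℝ => e1 (-(n * v)) * ((v : ℂ) - 1 / 2)) volume 0 1 := by
    apply Continuous.intervalIntegrable
    exact (cont_e1.comp (by fun_prop)).mul (by fun_prop)
  rw [intervalIntegral.integral_eq_sub_of_hasDerivAt (fun v _ => hd v) hc]
  have e1' : Complex.exp (a * ((1 : ℝ) : ℂ)) = 1 := by
    rw [← hE]
    have : (-((n : ℝ) * 1)) = ((-n : ℤ) : ℝ) := by push_cast; ring
    rw [this]
    exact e1_int _
  have e0 : Complex.exp (a * ((0 : ℝ) : ℂ)) = 1 := by simp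
  rw [e1', e0]
  have : (2 * (Real.pi : ℂ) * Complex.I * n) = -a := by rw [ha]; ring
  rw [this]
  push_cast
  field_simp
  ring

/-- the Fourier coefficients of a translate of the sawtooth function -/
lemma coef_sw (n : ℤ) (hn : n ≠ 0) (t : ℝ) :
    ∫ u in (0 : ℝ)..1, e1 (-(n * u)) * ((sw (u - t) : ℝ) : ℂ) =
      -(1 / (2 * Real.pi * Complex.I * n)) * e1 (-(n * t)) := by
  have hper : Function.Periodic (fun u : ℝ => e1 (-(n * u)) * ((sw (u - t) : ℝ) : ℂ)) 1 := by
    intro u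
    have h1 : e1 (-(n * (u + 1))) = e1 (-(n * u)) := by
      have : (-((n : ℝ) * (u + 1))) = -(n * u) + ((-n : ℤ) : ℝ) := by push_cast; ring
      rw [this, e1_add, e1_int, mul_one]
    have h2 : sw (u + 1 - t) = sw (u - t) := by
      have : u + 1 - t = u - t + 1 := by ring
      rw [this, sw_add_one]
    simp only [h1, h2]
  have h1 := hper.intervalIntegral_add_eq 0 t
  rw [zero_add] at h1
  rw [h1]
  have h2 : ∫ u in t..(t + 1), e1 (-(n * u)) * ((sw (u - t) : ℝ) : ℂ) =
      ∫ v in (0 : ℝ)..1, e1 (-(n * (v + t))) * ((sw (v + t - t) : ℝ) : ℂ) := by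
    rw [intervalIntegral.integral_comp_add_right
      (fun u : ℝ => e1 (-(n * u)) * ((sw (u - t) : ℝ) : ℂ)) t]
    simp [add_comm]
  rw [h2]
  have h3 : ∫ v in (0 : ℝ)..1, e1 (-(n * (v + t))) * ((sw (v + t - t) : ℝ) : ℂ) =
      ∫ v in (0 : ℝ)..1, e1 (-(n * t)) * (e1 (-(n * v)) * ((v : ℂ) - 1 / 2)) := by
    apply intervalIntegral.integral_congr_ae
    have hne : ∀ᵐ v : ℝ, v ≠ 1 := by
      rw [ae_iff]
      simp
    filter_upwards [hne] with v hv hm
    rw [uIoc_of_le zero_le_one] at hm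
    have h4 : sw (v + t - t) = v - 1 / 2 := by
      unfold sw
      rw [add_sub_cancel_right, Int.fract_eq_self.2 ⟨hm.1.le, lt_of_le_of_ne hm.2 hv⟩]
    rw [h4]
    have h5 : (-((n : ℝ) * (v + t))) = -(n * t) + -(n * v) := by ring
    rw [h5, e1_add]
    push_cast
    ring
  rw [h3, intervalIntegral.integral_const_mul, int_lin n hn]
  ring

lemma int_sw (t : ℝ) : ∫ u in (0 : ℝ)..1, sw (u - t) = 0 := by
  have hper : Function.Periodic (fun u : ℝ => sw (u - t)) 1 := by
    intro u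
    have : u + 1 - t = u - t + 1 := by ring
    simp only [this, sw_add_one]
  have h1 := hper.intervalIntegral_add_eq 0 t
  rw [zero_add] at h1
  rw [h1]
  have h2 : ∫ u in t..(t + 1), sw (u - t) = ∫ v in (0 : ℝ)..1, sw (v + t - t) := by
    rw [intervalIntegral.integral_comp_add_right (fun u : ℝ => sw (u - t)) t]
    simp [add_comm]
  rw [h2]
  have h3 : ∫ v in (0 : ℝ)..1, sw (v + t - t) = ∫ v in (0 : ℝ)..1, (v - 1 / 2) := by
    apply intervalIntegral.integral_congr_ae
    have hne : ∀ᵐ v : ℝ, v ≠ 1 := by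
      rw [ae_iff]
      simp
    filter_upwards [hne] with v hv hm
    rw [uIoc_of_le zero_le_one] at hm
    unfold sw
    rw [add_sub_cancel_right, Int.fract_eq_self.2 ⟨hm.1.le, lt_of_le_of_ne hm.2 hv⟩]
  rw [h3, intervalIntegral.integral_sub (by simp) (by simp)]
  simp

/-- Fubini -/
lemma fub (θ : Measure ℝ) [IsFiniteMeasure θ] (g : ℝ → ℂ) (hg : Measurable g) (hb : ∀ u, ‖g u‖ ≤ 1) :
    ∫ u in (0 : ℝ)..1, g u * ((∫ t, sw (u - t) ∂θ : ℝ) : ℂ) =
      ∫ t, (∫ u in (0 : ℝ)..1, g u * ((sw (u - t) : ℝ) : ℂ)) ∂θ := by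
  simp_rw [intervalIntegral.integral_of_le zero_le_one]
  have h1 : ∀ u : ℝ, g u * ((∫ t, sw (u - t) ∂θ : ℝ) : ℂ) = ∫ t, g u * ((sw (u - t) : ℝ) : ℂ) ∂θ := by
    intro u
    rw [integral_const_mul, integral_complex_ofReal]
  simp_rw [h1]
  apply integral_integral_swap
  refine Integrable.of_bound (C := 1) ?_ ?_
  · apply Measurable.aestronglyMeasurable
    exact (hg.comp measurable_fst).mul (Complex.measurable_ofReal.comp
      (meas_sw.comp (measurable_fst.sub measurable_snd)))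
  · refine Eventually.of_forall fun x => ?_
    simp only [Function.uncurry]
    rw [norm_mul, Complex.norm_real, Real.norm_eq_abs]
    exact mul_le_one₀ (hb _) (abs_nonneg _) (abs_sw_le _)

lemma meas_conv (θ : Measure ℝ) [IsFiniteMeasure θ] :
    Measurable (fun u : ℝ => ∫ t, sw (u - t) ∂θ) := by
  have h : StronglyMeasurable (Function.uncurry fun (u t : ℝ) => sw (u - t)) :=
    (meas_sw.comp (measurable_fst.sub measurable_snd)).stronglyMeasurable
  exact (h.integral_prod_right (ν := θ)).measurable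

lemma bd_conv (θ : Measure ℝ) [IsFiniteMeasure θ] (u : ℝ) :
    |∫ t, sw (u - t) ∂θ| ≤ θ.real Set.univ := by
  have := norm_integral_le_of_norm_le_const (μ := θ) (f := fun t => sw (u - t)) (C := 1)
    (Eventually.of_forall fun t => by rw [Real.norm_eq_abs]; exact abs_sw_le _)
  rw [Real.norm_eq_abs, one_mul] at this
  exact this

lemma ii_bdd {E : Type*} [NormedAddCommGroup E] [NormedSpace ℝ E] (g : ℝ → E)
    (hg : AEStronglyMeasurable g volume) (B : ℝ)
    (hb : ∀ u, ‖g u‖ ≤ B) : IntervalIntegrable g volume 0 1 := by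
  rw [intervalIntegrable_iff]
  exact Measure.integrableOn_of_bounded (M := B) (by simp) hg (Eventually.of_forall hb)

lemma ae_f (f : ℝ → ℝ) (θ₁ θ₂ : Measure ℝ) (c : ℝ)
    (h : {x : ℝ | 0 ≤ x ∧ x < 1 ∧ f x ≠ c - (∫ t, sw (x - t) ∂θ₁) + ∫ t, sw (x - t) ∂θ₂}.Countable) :
    ∀ᵐ u : ℝ, u ∈ Set.uIoc (0 : ℝ) 1 → f u = c - (∫ t, sw (u - t) ∂θ₁) + ∫ t, sw (u - t) ∂θ₂ := by
  have hne : ∀ᵐ v : ℝ, v ≠ 1 := by
    rw [ae_iff]
    simp
  have h2 := h.ae_notMem (volume : Measure ℝ)
  filter_upwards [hne, h2] with u hu1 hu2 hm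
  rw [uIoc_of_le zero_le_one] at hm
  by_contra hcon
  exact hu2 ⟨hm.1.le, lt_of_le_of_ne hm.2 hu1, hcon⟩

theorem t_FOUR : Pool.Agent.U798.BV.S_FOUR := by
  intro f θ₁ θ₂ c hθ₁ hθ₂ hf
  have hae := ae_f f θ₁ θ₂ c hf
  have i1 : IntervalIntegrable (fun u : ℝ => ∫ t, sw (u - t) ∂θ₁) volume 0 1 :=
    ii_bdd _ (meas_conv θ₁).aestronglyMeasurable _ (fun u => by
      rw [Real.norm_eq_abs]; exact bd_conv θ₁ u)
  have i2 : IntervalIntegrable (fun u : ℝ => ∫ t, sw (u - t) ∂θ₂) volume 0 1 :=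
    ii_bdd _ (meas_conv θ₂).aestronglyMeasurable _ (fun u => by
      rw [Real.norm_eq_abs]; exact bd_conv θ₂ u)
  have fub1 : ∀ θ : Measure ℝ, IsFiniteMeasure θ → ∫ u in (0 : ℝ)..1, (∫ t, sw (u - t) ∂θ) = 0 := by
    intro θ hθ
    have h1 := fub θ (fun _ => 1) measurable_const (fun _ => by simp)
    simp only [one_mul] at h1
    have h2 : ∀ t : ℝ, ∫ u in (0 : ℝ)..1, ((sw (u - t) : ℝ) : ℂ) = 0 := by
      intro t
      rw [intervalIntegral.integral_ofReal, int_sw]
      simp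
    simp only [h2, integral_zero] at h1
    rw [intervalIntegral.integral_ofReal] at h1
    exact_mod_cast h1
  refine ⟨?_, ?_⟩
  · rw [intervalIntegral.integral_congr_ae hae,
      intervalIntegral.integral_add ((intervalIntegrable_const).sub i1) i2,
      intervalIntegral.integral_sub intervalIntegrable_const i1, fub1 θ₁ hθ₁, fub1 θ₂ hθ₂]
    simp
  · intro n hn
    have hg : Measurable (fun u : ℝ => e1 (-(n * u))) := cont_e1.measurable.comp (by fun_prop)
    have hb : ∀ u : ℝ, ‖e1 (-(n * u))‖ ≤ 1 := fun u => (norm_e1 _).le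
    have hae2 : ∀ᵐ u : ℝ, u ∈ Set.uIoc (0 : ℝ) 1 → e1 (-(n * u)) * (f u : ℂ) =
        e1 (-(n * u)) * (c : ℂ) - e1 (-(n * u)) * ((∫ t, sw (u - t) ∂θ₁ : ℝ) : ℂ) +
          e1 (-(n * u)) * ((∫ t, sw (u - t) ∂θ₂ : ℝ) : ℂ) := by
      filter_upwards [hae] with u hu hm
      rw [hu hm]
      push_cast
      ring
    have k0 : IntervalIntegrable (fun u : ℝ => e1 (-(n * u)) * (c : ℂ)) volume 0 1 := by
      apply Continuous.intervalIntegrable
      exact (cont_e1.comp (by fun_prop)).mul continuous_const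
    have k : ∀ θ : Measure ℝ, IsFiniteMeasure θ → IntervalIntegrable
        (fun u : ℝ => e1 (-(n * u)) * ((∫ t, sw (u - t) ∂θ : ℝ) : ℂ)) volume 0 1 := by
      intro θ hθ
      refine ii_bdd _ (hg.mul (Complex.measurable_ofReal.comp (meas_conv θ))).aestronglyMeasurable
        (θ.real Set.univ) (fun u => ?_)
      rw [norm_mul, norm_e1, one_mul, Complex.norm_real, Real.norm_eq_abs]
      exact bd_conv θ u
    have hc0 : ∫ u in (0 : ℝ)..1, e1 (-(n * u)) * (c : ℂ) = 0 := by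
      rw [intervalIntegral.integral_mul_const]
      have h1 : ∫ u in (0 : ℝ)..1, e1 (-(n * u)) = 0 := by
        have hn0 : (n : ℂ) ≠ 0 := by exact_mod_cast hn
        have hpi : (Real.pi : ℂ) ≠ 0 := by exact_mod_cast Real.pi_ne_zero
        have ha0 : (-(2 * Real.pi * Complex.I * n) : ℂ) ≠ 0 := by
          simp [hn0, hpi, Complex.I_ne_zero]
        have h2 : ∀ u : ℝ, e1 (-(n * u)) = Complex.exp ((-(2 * Real.pi * Complex.I * n) : ℂ) * u) := by
          intro v
          unfold e1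
          congr 1
          push_cast
          ring
        have h3 : Complex.exp ((-(2 * Real.pi * Complex.I * n) : ℂ) * ((1 : ℝ) : ℂ)) = 1 := by
          rw [← h2]
          have : (-((n : ℝ) * 1)) = ((-n : ℤ) : ℝ) := by push_cast; ring
          rw [this]
          exact e1_int _
        simp_rw [h2]
        rw [integral_exp_mul_complex ha0, h3]
        simp
      rw [h1, zero_mul]
    have hF : ∀ θ : Measure ℝ, IsFiniteMeasure θ →
        ∫ u in (0 : ℝ)..1, e1 (-(n * u)) * ((∫ t, sw (u - t) ∂θ : ℝ) : ℂ) =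
          -(1 / (2 * Real.pi * Complex.I * n)) * ∫ t, e1 (-(n * t)) ∂θ := by
      intro θ hθ
      rw [fub θ _ hg hb]
      simp_rw [coef_sw n hn]
      rw [integral_const_mul]
    rw [intervalIntegral.integral_congr_ae hae2,
      intervalIntegral.integral_add (k0.sub (k θ₁ hθ₁)) (k θ₂ hθ₂),
      intervalIntegral.integral_sub k0 (k θ₁ hθ₁), hc0, hF θ₁ hθ₁, hF θ₂ hθ₂]
    ring

end Pool.Agent.U635.BV

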